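import Pool.Agent.V11251.DS.TransH
import Pool.Agent.V11251.DS.TransL

/-!
# The asymptotic formula for the number of the primes in almost all the translates of the set of the palindromes, every base

The second moments of the error for the primes over random palindromes, with arbitrary weights (starting files
`Pool.Agent.W93`, `Pool.Agent.TH872`, `Pool.Agent.H373R2.T7`), give by duality the sieve model in almost all the translates
(`Pool.Agent.V11251.DS.Trans`); the model is evaluated in every translate with the level of distribution of the palindromes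
with given leading and middle digits (`Pool.Agent.V11186.Pal.Level`, starting files `Pool.Agent.Y816.PS`) and the
fundamental lemma (starting file `Pool.Agent.H20R2.EN.FLem`).
-/

set_option autoImplicit false

namespace Pool.Agent.Results.MP_e8d2ce_nt.AlmostAllTranslates

open Finset

open Classical in
/-- The palindromes with exactly `2 L + 1` digits in base `b` (for `L ≥ 1`): the integers `v` with
`b ^ (2 L) ≤ v < b ^ (2 L + 1)` whose base-`b` digit sequence is equal to its own reverse. -/
noncomputable def pal (b L : ℕ) : Finset ℕ :=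
  (range (b ^ (2 * L + 1))).filter (fun v => b ^ (2 * L) ≤ v ∧ (Nat.digits b v).reverse = Nat.digits b v)

open Classical in
/-- The number of the palindromes `v` with exactly `2 L + 1` digits in base `b` for which `a + v` is a prime. -/
noncomputable def primes (b L a : ℕ) : ℕ := ((pal b L).filter (fun v => (a + v).Prime)).card

open Classical in
/-- `R(a)`: the number of the pairs of a last digit `l`, `1 ≤ l ≤ b - 1`, and a middle digit `e`, `0 ≤ e ≤ b - 1`, for which
`a + l` is coprime to `b` and, if `b` is odd, `a + e` is odd. (In an odd base, a palindrome with an odd number of digits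
has the parity of its middle digit.) -/
noncomputable def R (b a : ℕ) : ℕ :=
  ((Icc 1 (b - 1) ×ˢ range b).filter (fun x => (a + x.1).Coprime b ∧ (Even b ∨ Odd (a + x.2)))).card

lemma R_eq (b a : ℕ) : R b a = Pool.Agent.V11251.DS.R2 b a := by
  unfold R Pool.Agent.V11251.DS.R2
  apply congrArg card
  ext x
  simp only [mem_filter, Pool.Agent.V11251.DS.okD]

open Classical in
/-- Let the base `b ≥ 2`, `ε > 0`, `B` and `U` be fixed. Let `L` be large, `b ^ (2 L) / B ≤ N ≤ B b ^ (2 L)` and `0 ≤ c ≤ B N`.
Then for all the integers `a = c + n`, `1 ≤ n ≤ N`, with at most `N / log ^ U N` exceptions, the number of the base-`b`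
palindromes `v` with exactly `2 L + 1` digits for which `a + v` is a prime is
`R(a) (2 b / φ(2 b)) b ^ (L - 1) / log (b ^ (2 L))`, up to an error of at most `ε b ^ L / L`. (`R(a) ≥ 1` except if `b = 2`
and `a` is odd, when all the `a + v` are even. For `a = 0`, which is one translate and is not covered, this would be the
expected asymptotic formula for the number of the palindromic primes with `2 L + 1` digits, which is of the order in Q2.) -/
theorem result (b : ℕ) (hb : 2 ≤ b) (ε : ℝ) (hε : 0 < ε) (B U : ℕ) : ∃ L₀ : ℕ, ∀ L : ℕ, L₀ ≤ L →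
    ∀ N : ℕ, b ^ (2 * L) ≤ B * N → N ≤ B * b ^ (2 * L) → ∀ c : ℕ, c ≤ B * N →
    (((Icc 1 N).filter fun n : ℕ => ¬ |(primes b L (c + n) : ℝ) -
        R b (c + n) * (((2 * b : ℕ) : ℝ) / Nat.totient (2 * b) * ((b : ℝ) ^ L / b) / Real.log ((b : ℝ) ^ (2 * L)))| ≤
      ε * ((b : ℝ) ^ L / L)).card : ℝ) ≤ N / Real.log N ^ U := by
  obtain ⟨L₀, h⟩ := Pool.Agent.V11251.DS.final2 b hb (Pool.Agent.V11251.DS.levB b hb) ε hε B U
  refine ⟨L₀ + 1, fun L hL N hN1 hN2 c hc => ?_⟩
  obtain ⟨K, rfl⟩ : ∃ K : ℕ, L = K + 1 := ⟨L - 1, by omega⟩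
  refine h K (by omega) N hN1 hN2 c hc _ (fun n hn => ?_)
  have e1 : pal b (K + 1) = Pool.Agent.TH872.Mir.Pals b (2 * (K + 1) + 1) :=
    Pool.Agent.V11251.DS.pals_digits b (2 * (K + 1) + 1) hb (by omega)
  have hb0 : (b : ℝ) ≠ 0 := by
    have : 0 < b := by omega
    exact_mod_cast this.ne'
  have e2 : Real.log ((b : ℝ) ^ (2 * (K + 1))) = Real.log b * (2 * (K + 1 : ℕ)) := by
    rw [Real.log_pow]
    push_cast
    ring
  have e4 : (b : ℝ) ^ (K + 1) / b = (b : ℝ) ^ K := by
    rw [pow_succ, mul_div_assoc, div_self hb0, mul_one]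
  have e3 : (R b (c + n) : ℝ) * (((2 * b : ℕ) : ℝ) / Nat.totient (2 * b) * ((b : ℝ) ^ (K + 1) / b) / Real.log ((b : ℝ) ^ (2 * (K + 1)))) =
      Pool.Agent.V11251.DS.R2 b (c + n) * ((b : ℝ) ^ K * (((2 * b : ℕ) : ℝ) / Nat.totient (2 * b)) / (Real.log b * (2 * (K + 1 : ℕ)))) := by
    rw [e2, e4, R_eq, mul_comm (((2 * b : ℕ) : ℝ) / Nat.totient (2 * b))]
  unfold primes
  rw [e1, e3]
  convert hn

end Pool.Agent.Results.MP_e8d2ce_nt.AlmostAllTranslates
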