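import Pool.Agent.V11186.Pal.Turan
import Pool.Agent.H305R2.MertensM

/-!
# The number of prime factors of palindromes in short intervals

In every base `b ≥ 2` the palindromes with `2 N + 1` digits, with `N - L` given leading digits,
`L ≥ δ N`, and a given middle digit (there are `b ^ L` of them) have normally about `log N` (that is about
`log log n`) distinct prime factors: the mean square of `ω(n) - log N` is at most `C log N`.

The proof: the level of distribution `b ^ (49 L / 100)` of these palindromes, Turan's variance method,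
and Mertens' theorem.
-/

set_option autoImplicit false

namespace Pool.Agent.Results.MP_e8d2ce_nt.NormalOrder

open Finset Filter Topology Pool.Agent.V11186.Pal

lemma card_pf_le (m : ℕ) : m.primeFactors.card ≤ m := by
  have h1 : m.primeFactors ⊆ Icc 1 m := by
    intro p hp
    rw [mem_Icc]
    have h2 := Nat.pos_of_mem_primeFactors hp
    exact ⟨h2, Nat.le_of_mem_primeFactors hp⟩
  have h2 := card_le_card h1
  rwa [Nat.card_Icc, Nat.add_sub_cancel] at h2

lemma mean_asymp (b : ℕ) (hb : 2 ≤ b) : ∃ C : ℝ, 0 ≤ C ∧ ∃ z₀ : ℕ, ∀ z : ℕ, z₀ ≤ z →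
    |mean b z - Real.log (Real.log z)| ≤ C := by
  classical
  obtain ⟨M, hM⟩ := Pool.Agent.H305R2.mertens_inv_tendsto
  have h1 : ∀ᶠ z : ℕ in atTop, |(∑ p ∈ (Icc 1 z).filter Nat.Prime, (1 : ℝ) / p -
      Real.log (Real.log z)) - M| < 1 := by
    have h2 := (Metric.tendsto_nhds.1 hM) 1 one_pos
    filter_upwards [h2] with z hz
    rwa [Real.dist_eq] at hz
  obtain ⟨z₀, hz₀⟩ := eventually_atTop.1 h1
  refine ⟨|M| + 1 + 2 * b, by positivity, z₀, fun z hz => ?_⟩
  have h5 := hz₀ z hz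
  have h2 : mean b z ≤ ∑ p ∈ (Icc 1 z).filter Nat.Prime, (1 : ℝ) / p := by
    unfold mean smallPrimes
    refine sum_le_sum_of_subset_of_nonneg ?_ fun p _ _ => by positivity
    intro p hp
    rw [mem_filter] at hp ⊢
    exact ⟨hp.1, hp.2.1⟩
  have h3 : ∑ p ∈ (Icc 1 z).filter Nat.Prime, (1 : ℝ) / p ≤ mean b z + 2 * b := by
    have h4 : (Icc 1 z).filter Nat.Prime ⊆ smallPrimes b z ∪ (2 * b).primeFactors := by
      intro p hp
      rw [mem_filter] at hp
      rw [mem_union, smallPrimes, mem_filter]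
      by_cases h : p.Coprime (2 * b)
      · exact Or.inl ⟨hp.1, hp.2, h⟩
      · right
        rw [Nat.Prime.coprime_iff_not_dvd hp.2, not_not] at h
        exact Nat.mem_primeFactors.2 ⟨hp.2, h, by omega⟩
    refine (sum_le_sum_of_subset_of_nonneg h4 fun p _ _ => by positivity).trans ?_
    have h6 := sum_union_inter (s₁ := smallPrimes b z) (s₂ := (2 * b).primeFactors)
      (f := fun p : ℕ => (1 : ℝ) / p)
    have h7 : 0 ≤ ∑ p ∈ smallPrimes b z ∩ (2 * b).primeFactors, (1 : ℝ) / (p : ℝ) :=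
      sum_nonneg fun p _ => by positivity
    have h8 : ∑ p ∈ (2 * b).primeFactors, (1 : ℝ) / (p : ℝ) ≤ 2 * b := by
      have h9 : ∑ p ∈ (2 * b).primeFactors, (1 : ℝ) / (p : ℝ) ≤
          ∑ _p ∈ (2 * b).primeFactors, (1 : ℝ) := by
        refine sum_le_sum fun p hp => ?_
        have h10 : (1 : ℝ) ≤ p := by exact_mod_cast Nat.pos_of_mem_primeFactors hp
        rw [div_le_one (by linarith)]
        exact h10
      refine h9.trans ?_
      rw [sum_const, nsmul_eq_mul, mul_one]
      exact_mod_cast card_pf_le (2 * b)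
    have h11 : mean b z = ∑ p ∈ smallPrimes b z, (1 : ℝ) / (p : ℝ) := rfl
    rw [h11]
    linarith
  have hMa := abs_le.1 (le_refl |M|)
  rw [abs_lt] at h5
  rw [abs_le]
  constructor <;> linarith [hMa.1, hMa.2, h5.1, h5.2]

/-- there are few large prime factors -/
lemma large {b N n z : ℕ} (hn : n < b ^ (2 * N + 1)) (hn0 : n ≠ 0) (hz : 1 ≤ z) :
    ((n.primeFactors.filter (fun p => z < p)).card : ℝ) * Real.log z ≤
      (2 * (N : ℝ) + 1) * Real.log b := by
  have h1 : z ^ (n.primeFactors.filter (fun p => z < p)).card ≤ b ^ (2 * N + 1) := by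
    have e1 : z ^ (n.primeFactors.filter (fun p => z < p)).card ≤
        ∏ p ∈ n.primeFactors.filter (fun p => z < p), p := by
      rw [← prod_const]
      exact prod_le_prod (fun _ _ => Nat.zero_le _) fun p hp => (mem_filter.1 hp).2.le
    have e2 : ∏ p ∈ n.primeFactors.filter (fun p => z < p), p ≤ ∏ p ∈ n.primeFactors, p :=
      prod_le_prod_of_subset_of_one_le' (filter_subset _ _)
        fun p hp _ => Nat.pos_of_mem_primeFactors hp
    have e3 : ∏ p ∈ n.primeFactors, p ≤ n :=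
      Nat.le_of_dvd (Nat.pos_of_ne_zero hn0) (Nat.prod_primeFactors_dvd n)
    exact e1.trans (e2.trans (e3.trans hn.le))
  have hz0 : (0 : ℝ) < z := by exact_mod_cast hz
  have h2 : ((z : ℝ)) ^ (n.primeFactors.filter (fun p => z < p)).card ≤ (b : ℝ) ^ (2 * N + 1) := by
    exact_mod_cast h1
  have h3 := Real.log_le_log (by positivity) h2
  rw [Real.log_pow, Real.log_pow] at h3
  push_cast at h3
  exact h3

/-- comparison of the two counting functions -/
lemma compare {b N n z : ℕ} (hb : 2 ≤ b) (hn0 : n ≠ 0) :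
    omega b z n ≤ n.primeFactors.card ∧
      n.primeFactors.card ≤ omega b z n + 2 * b + (n.primeFactors.filter (fun p => z < p)).card := by
  classical
  constructor
  · unfold omega
    apply card_le_card
    intro p hp
    rw [mem_filter, smallPrimes, mem_filter] at hp
    exact Nat.mem_primeFactors.2 ⟨hp.1.2.1, hp.2, hn0⟩
  · have h1 : n.primeFactors ⊆ ((smallPrimes b z).filter (fun p => p ∣ n) ∪ (2 * b).primeFactors) ∪
        n.primeFactors.filter (fun p => z < p) := by
      intro p hp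
      have hpp := Nat.prime_of_mem_primeFactors hp
      have hpn := Nat.dvd_of_mem_primeFactors hp
      rw [mem_union, mem_union, mem_filter, mem_filter, smallPrimes, mem_filter, mem_Icc]
      by_cases h : z < p
      · exact Or.inr ⟨hp, h⟩
      · left
        by_cases h2 : p.Coprime (2 * b)
        · exact Or.inl ⟨⟨⟨hpp.pos, by omega⟩, hpp, h2⟩, hpn⟩
        · right
          rw [Nat.Prime.coprime_iff_not_dvd hpp, not_not] at h2
          exact Nat.mem_primeFactors.2 ⟨hpp, h2, by omega⟩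
    have h2 := card_le_card h1
    have h3 := card_union_le ((smallPrimes b z).filter (fun p => p ∣ n) ∪ (2 * b).primeFactors)
      (n.primeFactors.filter (fun p => z < p))
    have h4 := card_union_le ((smallPrimes b z).filter (fun p => p ∣ n)) (2 * b).primeFactors
    have h5 := card_pf_le (2 * b)
    unfold omega
    omega

/-- **Theorem.** Let `b ≥ 2` and `0 < δ ≤ 1`. There are `C` and `N₀` such that for all `N ≥ N₀`, all `L` with
`δ N ≤ L < N`, all integers `x` with `2 N + 1` base-`b` digits and all digits `e`, the `b ^ L` base-`b`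
palindromes `n` with `2 N + 1` digits which have the `N - L` leading digits of `x` and the middle digit `e`
satisfy `∑ (ω(n) - log N)² ≤ C b ^ L log N`, where `ω(n)` is the number of distinct prime factors. -/
theorem result (b : ℕ) (hb : 2 ≤ b) (δ : ℝ) (hδ : 0 < δ) (hδ1 : δ ≤ 1) :
    ∃ C : ℝ, 0 < C ∧ ∃ N₀ : ℕ, ∀ L N x e : ℕ, N₀ ≤ N → δ * N ≤ L → L < N →
      b ^ (2 * N) ≤ x → x < b ^ (2 * N + 1) → e < b →
      ((range (b ^ (2 * N + 1))).filter (fun n => (Nat.digits b n).reverse = Nat.digits b n ∧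
        n / b ^ (N + L + 1) = x / b ^ (N + L + 1) ∧ n / b ^ N % b = e)).card = b ^ L ∧
      ∑ n ∈ (range (b ^ (2 * N + 1))).filter (fun n => (Nat.digits b n).reverse = Nat.digits b n ∧
          n / b ^ (N + L + 1) = x / b ^ (N + L + 1) ∧ n / b ^ N % b = e),
        ((n.primeFactors.card : ℝ) - Real.log N) ^ 2 ≤ C * (b : ℝ) ^ L * Real.log N := by
  classical
  have hbR : (2 : ℝ) ≤ b := by exact_mod_cast hb
  have hb0 : (0 : ℝ) < b := by linarith
  have hb1 : (1 : ℝ) ≤ b := by linarith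
  have hlb : 0 < Real.log b := Real.log_pos (by linarith)
  obtain ⟨C2, hC2, z₀, hz₀⟩ := mean_asymp b hb
  obtain ⟨L₀, hL₀⟩ := eventually_atTop.1 (turan b hb)
  obtain ⟨L₁, hL₁⟩ : ∃ L₁ : ℕ, L₁ = L₀ + 5 * z₀ + 10 := ⟨_, rfl⟩
  obtain ⟨C3, hC3⟩ : ∃ C3 : ℝ, C3 = C2 + Real.log (10 / δ) + |Real.log (Real.log b)| := ⟨_, rfl⟩
  obtain ⟨C1, hC1⟩ : ∃ C1 : ℝ, C1 = 2 * b + 30 / δ := ⟨_, rfl⟩
  have hlδ : 0 ≤ Real.log (10 / δ) := by
    apply Real.log_nonneg
    rw [le_div_iff₀ hδ]
    linarith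
  have hC30 : 0 ≤ C3 := by
    rw [hC3]
    positivity
  have hC10 : 0 ≤ C1 := by
    rw [hC1]
    positivity
  refine ⟨4 + 2 * C3 + 2 * (C1 + C3) ^ 2, by positivity, ⌈(L₁ : ℝ) / δ⌉₊ + 3,
    fun L N x e hN hδL hLN h0 hx he => ?_⟩
  have hN1 : (L₁ : ℝ) / δ ≤ N := (Nat.le_ceil _).trans (by exact_mod_cast (by omega))
  have hN3 : 3 ≤ N := by omega
  have hNR : (3 : ℝ) ≤ N := by exact_mod_cast hN3
  have hLL₁ : L₁ ≤ L := by
    rw [div_le_iff₀ hδ] at hN1
    have : (L₁ : ℝ) ≤ L := by linarith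
    exact_mod_cast this
  refine ⟨card_pals hb hLN h0 hx he, ?_⟩
  -- the parameter `z = b ^ k`
  obtain ⟨k, hk⟩ : ∃ k : ℕ, k = L / 5 := ⟨_, rfl⟩
  have hk1 : L ≤ 10 * k := by omega
  have hk2 : 5 * k ≤ L := by omega
  have hkz : z₀ ≤ k := by omega
  have hk0 : 0 < k := by omega
  have hkR : (0 : ℝ) < k := by exact_mod_cast hk0
  have hz1 : 1 ≤ b ^ k := Nat.one_le_pow _ _ (by omega)
  have hzz : z₀ ≤ b ^ k := hkz.trans (Nat.lt_pow_self (by omega)).le
  have hlogz : Real.log ((b ^ k : ℕ) : ℝ) = k * Real.log b := by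
    push_cast
    rw [Real.log_pow]
  have hzsq : (((b ^ k : ℕ) : ℝ)) ^ 2 ≤ (b : ℝ) ^ ((49 / 100 : ℝ) * L) := by
    push_cast
    rw [← pow_mul, ← Real.rpow_natCast]
    apply Real.rpow_le_rpow_of_exponent_le hb1
    push_cast
    have h1 : (5 * (k : ℝ)) ≤ L := by exact_mod_cast hk2
    have h2 : (0 : ℝ) ≤ L := Nat.cast_nonneg L
    linarith
  have htur := hL₀ L (by omega) N x e (b ^ k) hLN h0 hx he hz1 hzsq
  -- the mean
  have hm := hz₀ (b ^ k) hzz
  rw [hlogz, Real.log_mul hkR.ne' hlb.ne'] at hm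
  have hkN : Real.log k ≤ Real.log N := by
    apply Real.log_le_log hkR
    have : k ≤ N := by omega
    exact_mod_cast this
  have hkN2 : Real.log N ≤ Real.log k + Real.log (10 / δ) := by
    rw [← Real.log_mul hkR.ne' (by positivity)]
    apply Real.log_le_log (by linarith)
    rw [mul_div_assoc', le_div_iff₀ hδ]
    have h1 : (L : ℝ) ≤ 10 * k := by exact_mod_cast hk1
    linarith
  have hlbb := abs_le.1 (le_refl |Real.log (Real.log b)|)
  rw [abs_le] at hm
  have hmean : |mean b (b ^ k) - Real.log N| ≤ C3 := by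
    rw [abs_le, hC3]
    constructor <;> linarith [hm.1, hm.2, hlbb.1, hlbb.2]
  have hlN : 1 ≤ Real.log N := by
    rw [Real.le_log_iff_exp_le (by linarith)]
    have := Real.exp_one_lt_d9
    linarith
  -- termwise comparison
  have hterm : ∀ n ∈ pals b N L x e, ((n.primeFactors.card : ℝ) - Real.log N) ^ 2 ≤
      2 * ((omega b (b ^ k) n : ℝ) - mean b (b ^ k)) ^ 2 + 2 * (C1 + C3) ^ 2 := by
    intro n hn
    rw [pals, mem_filter, mem_range] at hn
    have hge := ge_of_prefix hb hLN h0 hn.2.2.1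
    have hn0 : n ≠ 0 := by
      have : 0 < b ^ (2 * N) := by positivity
      omega
    obtain ⟨h1, h2⟩ := compare (N := N) (z := b ^ k) hb hn0
    have h3 := large hn.1 hn0 hz1
    rw [hlogz] at h3
    obtain ⟨F, hF⟩ : ∃ F : ℝ, F = ((n.primeFactors.filter (fun p => b ^ k < p)).card : ℝ) :=
      ⟨_, rfl⟩
    have h1' : (omega b (b ^ k) n : ℝ) ≤ (n.primeFactors.card : ℝ) := by exact_mod_cast h1
    have h2' : (n.primeFactors.card : ℝ) ≤ (omega b (b ^ k) n : ℝ) + 2 * b + F := by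
      rw [hF]
      exact_mod_cast h2
    rw [← hF] at h3
    have hF0 : 0 ≤ F := by rw [hF]; positivity
    have h4 : F * k ≤ 2 * (N : ℝ) + 1 := by
      have h5 : (F * k) * Real.log b ≤ (2 * (N : ℝ) + 1) * Real.log b := by linarith
      exact le_of_mul_le_mul_right h5 hlb
    have h5 : F ≤ 30 / δ := by
      rw [le_div_iff₀ hδ]
      have h6 : δ * N ≤ 10 * k := hδL.trans (by exact_mod_cast hk1)
      have h7 : F * (δ * N) ≤ F * (10 * k) := mul_le_mul_of_nonneg_left h6 hF0
      have h8 : F * δ * N ≤ 30 * N := by nlinarith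
      exact le_of_mul_le_mul_right h8 (by linarith)
    have h6 : |(n.primeFactors.card : ℝ) - (omega b (b ^ k) n : ℝ)| ≤ C1 := by
      rw [abs_le, hC1]
      constructor <;> linarith
    obtain ⟨u, hu⟩ : ∃ u : ℝ, u = (omega b (b ^ k) n : ℝ) - mean b (b ^ k) := ⟨_, rfl⟩
    obtain ⟨v, hv⟩ : ∃ v : ℝ, v = ((n.primeFactors.card : ℝ) - (omega b (b ^ k) n : ℝ)) +
      (mean b (b ^ k) - Real.log N) := ⟨_, rfl⟩
    have h7 : |v| ≤ C1 + C3 := by
      rw [hv]
      exact (abs_add_le _ _).trans (add_le_add h6 hmean)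
    have h8 : (n.primeFactors.card : ℝ) - Real.log N = u + v := by
      rw [hu, hv]
      ring
    rw [h8, ← hu]
    have h9 : v ^ 2 ≤ (C1 + C3) ^ 2 := by
      rw [← sq_abs v]
      exact pow_le_pow_left₀ (abs_nonneg v) h7 2
    nlinarith [sq_nonneg (u - v)]
  have hXpos : (0 : ℝ) < (b : ℝ) ^ L := by positivity
  have hcard : ((pals b N L x e).card : ℝ) = (b : ℝ) ^ L := by
    rw [card_pals hb hLN h0 hx he]
    push_cast
    rfl
  have hsum : ∑ n ∈ pals b N L x e, ((n.primeFactors.card : ℝ) - Real.log N) ^ 2 ≤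
      2 * ((b : ℝ) ^ L * (mean b (b ^ k) + 1)) + (b : ℝ) ^ L * (2 * (C1 + C3) ^ 2) := by
    refine (sum_le_sum hterm).trans ?_
    rw [sum_add_distrib, ← mul_sum, sum_const, nsmul_eq_mul, hcard]
    linarith
  have hmu : mean b (b ^ k) ≤ Real.log N + C3 := by
    have := (abs_le.1 hmean).2
    linarith
  refine le_trans hsum ?_
  have h1 : 2 * ((b : ℝ) ^ L * (mean b (b ^ k) + 1)) + (b : ℝ) ^ L * (2 * (C1 + C3) ^ 2) =
      (b : ℝ) ^ L * (2 * (mean b (b ^ k) + 1) + 2 * (C1 + C3) ^ 2) := by ring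
  have h2 : (4 + 2 * C3 + 2 * (C1 + C3) ^ 2) * (b : ℝ) ^ L * Real.log N =
      (b : ℝ) ^ L * ((4 + 2 * C3 + 2 * (C1 + C3) ^ 2) * Real.log N) := by ring
  rw [h1, h2]
  refine mul_le_mul_of_nonneg_left ?_ hXpos.le
  have h3 : 0 ≤ (2 + 2 * C3 + 2 * (C1 + C3) ^ 2) * (Real.log N - 1) :=
    mul_nonneg (by positivity) (by linarith)
  nlinarith

end Pool.Agent.Results.MP_e8d2ce_nt.NormalOrder
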