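import Pool.Agent.H281L.ShiftB3

/-!
# Primes at a fixed distance from palindromes, in every base

`b ^ (2 * N) ≤ n < b ^ (2 * N + 1)` and `(Nat.digits b n).reverse = Nat.digits b n`: the base-`b`
palindromes with exactly `2 * N + 1` digits. The bounds are uniform in the integer `a`; the case
`a = 0` (starting file `PrimesUpperBound`) counts the palindromic primes, and the case `a = - M`
counts the palindromes `n` with `|n - M|` prime, that is the representations `M = n ± p`. For `a = 0`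
and even `b` the conjectured number is `(1 + o(1)) b ^ (N + 1) / (2 N log b)`.
-/

set_option autoImplicit false

namespace Pool.Agent.Results.MP_e8d2ce_nt.ShiftedPalindromes

open Finset Filter

/-- Uniformly in the integer `a`, for all large `N`: the number of the base-`b` palindromes `n` with exactly `2 N + 1`
digits for which `|n + a|` is a prime is at most `C (b + (b mod 2)) b ^ N / (2 N log b)`, where

(1) `C = 8 + ε` for every base `b ≥ 2`;

(2) `C = 4 / κ + ε` for every base `b ≥ 64` and every `κ > 0` with `b ^ κ (2 + (2 / π) log b) < b`;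

(3) `C = 4 + ε` for every base `b ≥ b₀(ε)`. -/
theorem result :
    (∀ b : ℕ, 2 ≤ b → ∀ ε : ℝ, 0 < ε → ∀ᶠ N : ℕ in atTop, ∀ a : ℤ,
      (((range (b ^ (2 * N + 1))).filter (fun n : ℕ => b ^ (2 * N) ≤ n ∧
        (Nat.digits b n).reverse = Nat.digits b n ∧ ((n : ℤ) + a).natAbs.Prime)).card : ℝ) ≤
        (8 + ε) * (((b : ℝ) + ((b % 2 : ℕ) : ℝ)) * (b : ℝ) ^ N / (2 * (N : ℝ) * Real.log b))) ∧
    (∀ b : ℕ, 64 ≤ b → ∀ κ : ℝ, 0 < κ → (b : ℝ) ^ κ * (2 + 2 / Real.pi * Real.log b) < b →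
      ∀ ε : ℝ, 0 < ε → ∀ᶠ N : ℕ in atTop, ∀ a : ℤ,
      (((range (b ^ (2 * N + 1))).filter (fun n : ℕ => b ^ (2 * N) ≤ n ∧
        (Nat.digits b n).reverse = Nat.digits b n ∧ ((n : ℤ) + a).natAbs.Prime)).card : ℝ) ≤
        (4 / κ + ε) * (((b : ℝ) + ((b % 2 : ℕ) : ℝ)) * (b : ℝ) ^ N / (2 * (N : ℝ) * Real.log b))) ∧
    (∀ ε : ℝ, 0 < ε → ∃ b₀ : ℕ, ∀ b : ℕ, b₀ ≤ b → ∀ᶠ N : ℕ in atTop, ∀ a : ℤ,
      (((range (b ^ (2 * N + 1))).filter (fun n : ℕ => b ^ (2 * N) ≤ n ∧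
        (Nat.digits b n).reverse = Nat.digits b n ∧ ((n : ℤ) + a).natAbs.Prime)).card : ℝ) ≤
        (4 + ε) * (((b : ℝ) + ((b % 2 : ℕ) : ℝ)) * (b : ℝ) ^ N / (2 * (N : ℝ) * Real.log b))) :=
  ⟨fun _ hb ε hε => Pool.Agent.H281L.B.eightA hb ε hε,
    fun _ hb _ hκ0 hκ ε hε => Pool.Agent.H281L.B.largeA hb hκ0 hκ ε hε,
    fun ε hε => Pool.Agent.H281L.B.fourA ε hε⟩

end Pool.Agent.Results.MP_e8d2ce_nt.ShiftedPalindromes
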