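import Pool.Agent.V11186.Pal.Level

/-!
# Palindromes in short intervals: level of distribution, every base

In every base `b ≥ 2` the palindromes with `2 N + 1` digits, given `N - L` leading digits and given
middle digit (there are `b ^ L` of them) have level of distribution `b ^ (49 L / 100)` for moduli
coprime to `2 b`, uniformly in the given digits, in `N > L` and in the residue classes.
-/

set_option autoImplicit false

namespace Pool.Agent.Results.MP_e8d2ce_nt.ShortIntervalLevel

open Finset Filter Pool.Agent.V11186.Pal Pool.Agent.Y816.PS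

/-- **Theorem.** Let `b ≥ 2` and `A` be given. For all large `L`, all `N > L`, all integers `x` with
`2 N + 1` base-`b` digits, all digits `e` and all choices `h(q)` of residue classes, the `b ^ L` base-`b`
palindromes `n` with `2 N + 1` digits which have the `N - L` leading digits of `x` and the middle digit `e`
satisfy

`∑ τ(q)² |#{n : n ≡ h(q) mod q} - b ^ L / q| ≤ b ^ L / L ^ A`,

the sum being over the `q ≤ b ^ (49 L / 100)` coprime to `2 b`. -/
theorem result (b : ℕ) (hb : 2 ≤ b) (A : ℕ) : ∀ᶠ L : ℕ in atTop, ∀ N x e : ℕ, L < N →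
    b ^ (2 * N) ≤ x → x < b ^ (2 * N + 1) → e < b →
    ((range (b ^ (2 * N + 1))).filter (fun n => (Nat.digits b n).reverse = Nat.digits b n ∧
      n / b ^ (N + L + 1) = x / b ^ (N + L + 1) ∧ n / b ^ N % b = e)).card = b ^ L ∧
    ∀ h : ℕ → ℕ,
      ∑ q ∈ (Icc 1 ⌊(b : ℝ) ^ ((49 / 100 : ℝ) * L)⌋₊).filter (fun q => q.Coprime (2 * b)),
        (q.divisors.card : ℝ) ^ 2 *
        |(((range (b ^ (2 * N + 1))).filter (fun n =>
            ((Nat.digits b n).reverse = Nat.digits b n ∧
              n / b ^ (N + L + 1) = x / b ^ (N + L + 1) ∧ n / b ^ N % b = e) ∧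
            n ≡ h q [MOD q])).card : ℝ) - (b : ℝ) ^ L / q| ≤ (b : ℝ) ^ L / (L : ℝ) ^ A := by
  filter_upwards [er_final hb A] with L hL
  intro N x e hN h0 hx he
  refine ⟨card_pals hb hN h0 hx he, fun h => le_trans (sum_le_sum fun q hq => ?_) hL⟩
  rw [mem_filter] at hq
  refine mul_le_mul_of_nonneg_left ?_ (by positivity)
  have h1 := class_pals hb hN h0 hx he q (h q) hq.2
  unfold pals at h1
  rw [filter_filter] at h1
  exact h1

end Pool.Agent.Results.MP_e8d2ce_nt.ShortIntervalLevel
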